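import Pool.Agent.Helper62.NT.Scl

/-! PROJECT NT (MP_8ff381_an), packet EMBB: the embedding of the bounded part. -/

set_option autoImplicit false

noncomputable section

namespace Pool.Agent.Helper61.NT.EMBB

open Filter Topology
open Pool.Agent.Helper62.NT

variable {H : Type} [MetricSpace H]

/-- the index set -/
def TT (D : CD H) (A : Set H) : Set (ℕ × H) :=
  {c : ℕ × H | (∃ k : ℕ, D.R.dep c.2 = k * D.s c.1) ∧ ∃ x ∈ A, D.R.le c.2 x ∧ c.2 ≠ x}

open Classical in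
/-- the coordinates -/
def ph (D : CD H) (A : Set H) (f : ℕ × H → H → Pool.Agent.Helper84.TR.HN 1) (c : ℕ × H) (x : H) :
    Pool.Agent.Helper84.TR.HN 1 × ℝ :=
  (if D.Lead c then f c (D.pr c x) else 0, if c ∈ FZ D A ∧ D.R.le c.2 x then D.s c.1 else 0)

theorem upper (hPRJ : S_PRJ) (hDIS : S_DIS) (hFZU : S_FZU) (D : CD H) (A : Set H)
    (f : ℕ × H → H → Pool.Agent.Helper84.TR.HN 1)
    (hf : ∀ c, D.Lead c → ∀ p ∈ D.Pc c.1 c.2, ∀ q ∈ D.Pc c.1 c.2,
      dist (f c p) (f c q) ≤ 21 * dist p q)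
    (F : Finset (ℕ × H)) (x y : H) (hx : x ∈ A) (hy : y ∈ A) :
    ∑ c ∈ F, ‖ph D A f c x - ph D A f c y‖ ≤ 53 * dist x y := by
  classical
  have key : ∀ c ∈ F, ‖ph D A f c x - ph D A f c y‖ ≤
      (if D.Lead c then 21 * dist (D.pr c x) (D.pr c y) else 0) +
      ((if c ∈ FZ D A ∧ D.R.le c.2 x ∧ ¬ D.R.le c.2 y then D.s c.1 else 0) +
       (if c ∈ FZ D A ∧ D.R.le c.2 y ∧ ¬ D.R.le c.2 x then D.s c.1 else 0)) := by
    intro c _
    have hs := s_pos D c.1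
    have e : ph D A f c x - ph D A f c y =
        ((if D.Lead c then f c (D.pr c x) else 0) - (if D.Lead c then f c (D.pr c y) else 0),
         (if c ∈ FZ D A ∧ D.R.le c.2 x then D.s c.1 else 0) -
         (if c ∈ FZ D A ∧ D.R.le c.2 y then D.s c.1 else 0)) := rfl
    rw [e, Prod.norm_def]
    refine (max_le_add_of_nonneg (norm_nonneg _) (norm_nonneg _)).trans (add_le_add ?_ ?_)
    · change ‖(if D.Lead c then f c (D.pr c x) else 0) -
        (if D.Lead c then f c (D.pr c y) else 0)‖ ≤ _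
      by_cases hc : D.Lead c
      · rw [if_pos hc, if_pos hc, if_pos hc, ← dist_eq_norm]
        exact hf c hc _ ((hPRJ H D c hc).1 x) _ ((hPRJ H D c hc).1 y)
      · rw [if_neg hc, if_neg hc, if_neg hc, sub_zero, norm_zero]
    · change ‖(if c ∈ FZ D A ∧ D.R.le c.2 x then D.s c.1 else 0) -
         (if c ∈ FZ D A ∧ D.R.le c.2 y then D.s c.1 else 0)‖ ≤ _
      by_cases hc : c ∈ FZ D A
      · by_cases h1 : D.R.le c.2 x
        · by_cases h2 : D.R.le c.2 y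
          · simp [hc, h1, h2]
          · simp [hc, h1, h2, abs_of_pos hs]
        · by_cases h2 : D.R.le c.2 y
          · simp [hc, h1, h2, abs_of_pos hs]
          · simp [hc, h1, h2]
      · simp [hc]
  refine (Finset.sum_le_sum key).trans ?_
  rw [Finset.sum_add_distrib, Finset.sum_add_distrib, ← Finset.sum_filter, ← Finset.sum_filter,
    ← Finset.sum_filter, ← Finset.mul_sum]
  have h1 := hDIS H D (F.filter fun c => D.Lead c) x y
    (fun c hc => (Finset.mem_filter.1 hc).2)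
  have h2 := hFZU H D A x y (F.filter fun c => c ∈ FZ D A ∧ D.R.le c.2 x ∧ ¬ D.R.le c.2 y) hx
    (fun c hc => (Finset.mem_filter.1 hc).2)
  have h3 := hFZU H D A y x (F.filter fun c => c ∈ FZ D A ∧ D.R.le c.2 y ∧ ¬ D.R.le c.2 x) hy
    (fun c hc => (Finset.mem_filter.1 hc).2)
  have h4 := D.R.dist_eq x y
  have h5 := D.R.gp_comm x y
  rw [← h5] at h3
  linarith

theorem lower (hRTB : S_RTB) (hWIN : S_WIN) (hSLB : S_SLB) (hPRJ : S_PRJ) (hFZL : S_FZL)
    (D : CD H) (A : Set H) (N : ℕ) (hB : 4 * N + 4 ≤ D.B)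
    (hkp : ∀ n, KeptOK D.R A (D.s n) N (D.kept n))
    (f : ℕ × H → H → Pool.Agent.Helper84.TR.HN 1)
    (hf : ∀ c, D.Lead c → ∀ p ∈ D.Pc c.1 c.2, ∀ q ∈ D.Pc c.1 c.2,
      1 / 640 * dist p q ≤ dist (f c p) (f c q))
    (x y : H) (hx : x ∈ A) (hL0 : 0 < D.R.dep x - D.R.gp x y)
    (hLΔ : D.R.dep x ≤ D.Δ) :
    ∃ c ∈ TT D A, 1 / (1280 * (D.B : ℝ) ^ 3) * (D.R.dep x - D.R.gp x y) ≤
      dist (ph D A f c x) (ph D A f c y) := by
  classical
  obtain ⟨L, hL⟩ : ∃ L, L = D.R.dep x - D.R.gp x y := ⟨_, rfl⟩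
  obtain ⟨g, hg⟩ : ∃ g, g = D.R.gp x y := ⟨_, rfl⟩
  rw [← hL] at hL0 ⊢
  have hg0 : 0 ≤ g := hg ▸ D.R.gp_nonneg x y
  have hLg : L = D.R.dep x - g := by rw [hL, hg]
  have hBp := B_pos D
  have hB20 : (20 : ℝ) ≤ D.B := by exact_mod_cast D.hB
  have hΔ := D.hΔ
  -- the scale
  have hex : ∃ n : ℕ, 2 ≤ n ∧ 2 * D.s (n - 1) ≤ L := by
    obtain ⟨m, hm⟩ := pow_unbounded_of_one_lt (2 * D.Δ / L) (by linarith : (1 : ℝ) < D.B)
    refine ⟨m + 2, by omega, ?_⟩
    have h1 : m + 2 - 1 = m + 1 := by omega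
    rw [h1]
    have h2 : D.s (m + 1) ≤ D.s m := s_anti D (by omega)
    have h3 : 2 * D.s m ≤ L := by
      unfold CD.s
      rw [div_lt_iff₀ hL0] at hm
      rw [← mul_div_assoc, div_le_iff₀ (by positivity)]
      linarith
    linarith
  obtain ⟨n, ⟨hn2, hnL⟩, hmin⟩ : ∃ n : ℕ, (2 ≤ n ∧ 2 * D.s (n - 1) ≤ L) ∧
      ∀ m, m < n → ¬ (2 ≤ m ∧ 2 * D.s (m - 1) ≤ L) :=
    ⟨Nat.find hex, Nat.find_spec hex, fun m hm => Nat.find_min hex hm⟩
  have hbig : L < 2 * D.s (n - 2) := by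
    rcases Nat.lt_or_ge 2 n with h | h
    · have h1 := hmin (n - 1) (by omega)
      have h2 : n - 1 - 1 = n - 2 := by omega
      rw [h2] at h1
      by_contra h3
      exact h1 ⟨by omega, not_lt.1 h3⟩
    · have h1 : n - 2 = 0 := by omega
      rw [h1]
      unfold CD.s
      rw [pow_zero, div_one]
      linarith
  have hsn := s_pos D n
  have e1 : D.s (n - 1) = D.B * D.s n := s_pred D (by omega)
  have e2 : D.s (n - 2) = (D.B : ℝ) ^ 2 * D.s n := by
    have h1 := s_mul D (show n - 2 ≤ n by omega)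
    have h2 : n - (n - 2) = 2 := by omega
    rwa [h2] at h1
  have hs1 := s_pos D (n - 1)
  -- the coarse slab
  obtain ⟨k', hk'⟩ : ∃ k' : ℕ, k' = ⌈g / D.s (n - 1)⌉₊ := ⟨_, rfl⟩
  have hk1 : g ≤ k' * D.s (n - 1) := by
    rw [hk', ← div_le_iff₀ hs1]
    exact Nat.le_ceil _
  have hk2 : k' * D.s (n - 1) < g + D.s (n - 1) := by
    have h1 : (k' : ℝ) < g / D.s (n - 1) + 1 := by
      rw [hk']
      exact Nat.ceil_lt_add_one (by positivity)
    have h2 : (k' : ℝ) * D.s (n - 1) < (g / D.s (n - 1) + 1) * D.s (n - 1) :=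
      mul_lt_mul_of_pos_right h1 hs1
    rw [add_mul, div_mul_cancel₀ _ hs1.ne', one_mul] at h2
    exact h2
  have hk3 : (k' + 1) * D.s (n - 1) ≤ D.R.dep x := by linarith
  have hfinal : 1 / (1280 * (D.B : ℝ) ^ 3) * L ≤ D.s n / 640 ∧
      1 / (1280 * (D.B : ℝ) ^ 3) * L ≤ D.s (n + 1) := by
    have h1 : L < 2 * ((D.B : ℝ) ^ 2 * D.s n) := by rw [← e2]; exact hbig
    have h2 : D.s n = D.B * D.s (n + 1) := by
      have := s_pred D (show 1 ≤ n + 1 by omega)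
      rwa [Nat.add_sub_cancel] at this
    have hs2 := s_pos D (n + 1)
    constructor
    · rw [one_div, inv_mul_le_iff₀ (by positivity)]
      have h3 : (D.B : ℝ) ^ 2 ≤ (D.B : ℝ) ^ 3 := pow_le_pow_right₀ (by linarith) (by norm_num)
      nlinarith
    · rw [one_div, inv_mul_le_iff₀ (by positivity)]
      rw [h2] at h1
      have h3 : 0 < (D.B : ℝ) ^ 3 * D.s (n + 1) := by positivity
      nlinarith
  have hnode : ∀ k : ℕ, k' * D.B < k → k < (k' + 1) * D.B →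
      g < k * D.s n ∧ (k + 1) * D.s n ≤ D.R.dep x := by
    intro k h1 h2
    have h3 : ((k' : ℝ) * D.B) < k := by exact_mod_cast h1
    have h4 : (k : ℝ) + 1 ≤ (k' + 1) * D.B := by exact_mod_cast h2
    rw [e1] at hk1 hk3
    constructor
    · calc g ≤ k' * (D.B * D.s n) := hk1
        _ = (k' * D.B) * D.s n := by ring
        _ < k * D.s n := mul_lt_mul_of_pos_right h3 hsn
    · calc ((k : ℝ) + 1) * D.s n ≤ ((k' + 1) * D.B) * D.s n :=
            mul_le_mul_of_nonneg_right h4 hsn.le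
        _ = (k' + 1) * (D.B * D.s n) := by ring
        _ ≤ _ := hk3
  by_cases hnear : ∀ k : ℕ, k' * D.B < k → k < (k' + 1) * D.B →
      Near A (D.s n / 8) (D.R.res x (k * D.s n))
  · -- an uncut slab
    obtain ⟨k, h1, h2, h3⟩ := hWIN H D A N x n k' hn2 hB hk3 (hkp n) hnear
    obtain ⟨h4, h5⟩ := hnode k h1 (by omega)
    obtain ⟨c, hc, hc1, hc2, hc3⟩ := hSLB H D x y n k (by omega) (by omega) h5 h3
      (by rw [← hg]; exact h4.le)
    refine ⟨c, ?_, ?_⟩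
    · obtain ⟨j, -, hj⟩ := hc.2.1
      exact ⟨⟨j, hj⟩, x, hx, hc1, hc2⟩
    · have h6 := hf c hc _ ((hPRJ H D c hc).1 x) _ ((hPRJ H D c hc).1 y)
      have h7 : dist (f c (D.pr c x)) (f c (D.pr c y)) ≤
          dist (ph D A f c x) (ph D A f c y) := by
        have h8 : dist (ph D A f c x).1 (ph D A f c y).1 ≤
            dist (ph D A f c x) (ph D A f c y) := le_max_left _ _
        refine le_trans (le_of_eq ?_) h8
        unfold ph
        simp only [if_pos hc]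
      have h8 := hfinal.1
      linarith
  · -- a far node
    push Not at hnear
    obtain ⟨k, h1, h2, h3⟩ := hnear
    obtain ⟨h4, h5⟩ := hnode k h1 h2
    have h6 : k * D.s n ≤ D.R.dep x := by linarith
    obtain ⟨c, hc, hc1, hc2, hc3⟩ := hFZL H D A x n (k * D.s n) g hx (by omega) hg0 h4 h6 h3
    have hc4 : ¬ D.R.le c.2 y := by
      intro h7
      have h8 : D.R.res x (D.R.dep c.2) = D.R.res y (D.R.dep c.2) := by
        rw [hc2.2, h7.2]
      have h9 := (D.R.res_eq x y (D.R.dep c.2) ((hRTB H D.R).1 _).1 hc2.1 h7.1).1 h8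
      rw [← hg] at h9
      linarith
    refine ⟨c, ?_, ?_⟩
    · obtain ⟨j, -, hj⟩ := hc.2.1
      refine ⟨⟨j, hj⟩, x, hx, hc2, ?_⟩
      rintro rfl
      have h7 := hc.2.2.1
      rw [Metric.infDist_zero_of_mem hx] at h7
      have h8 := s_pos D c.1
      linarith
    · have h7 : dist (D.s c.1) (0 : ℝ) ≤ dist (ph D A f c x) (ph D A f c y) := by
        rw [Prod.dist_eq]
        refine le_trans (le_of_eq ?_) (le_max_right _ _)
        unfold ph
        simp only [if_pos (And.intro hc hc2)]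
        rw [if_neg (fun h => hc4 h.2)]
      rw [Real.dist_eq, sub_zero, abs_of_pos (s_pos D c.1), hc1] at h7
      exact hfinal.2.trans h7

/-- PACKET EMBB -/
theorem t (hRTB : S_RTB) (hKEPT : S_KEPT) (hWIN : S_WIN) (hPEMB : S_PEMB) (hPRJ : S_PRJ)
    (hDIS : S_DIS) (hSLB : S_SLB) (hFZU : S_FZU) (hFZL : S_FZL) (hCNT : S_CNT) (hLPS : S_LPS) :
    S_EMBB := by
  classical
  intro N
  obtain ⟨B, hB⟩ : ∃ B : ℕ, B = 4 * N + 20 := ⟨_, rfl⟩
  have hBp : (0 : ℝ) < B := by exact_mod_cast (by omega : 0 < B)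
  refine ⟨1 / (2560 * (B : ℝ) ^ 3), by positivity, ?_⟩
  intro H _ R A Δ hΔ hsep hdep ho hSK
  obtain ⟨o, hoA, ho0⟩ := ho
  have hk : ∀ n : ℕ, ∃ kp : H → Set H, (∀ v, (kp v).Finite) ∧ (∀ v u, u ∈ kp v → R.le v u) ∧
      (∀ v u, u ∈ kp v → R.dep u = R.dep v + Δ / B ^ n) ∧ KeptOK R A (Δ / B ^ n) N kp := by
    intro n
    have hs : 0 < Δ / (B : ℝ) ^ n := by positivity
    exact hKEPT H R A (Δ / B ^ n) N hs (fun v k _ _ hn => hSK _ v hs hn)
  choose kp hk1 hk2 hk3 hk4 using hk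
  obtain ⟨D, hDR, hDΔ, hDB, hDk⟩ : ∃ D : CD H, D.R = R ∧ D.Δ = Δ ∧ D.B = B ∧ ∀ n,
      KeptOK D.R A (D.s n) N (D.kept n) :=
    ⟨⟨R, Δ, B, kp, hΔ, by omega, hk1, hk2, hk3⟩, rfl, rfl, rfl, hk4⟩
  subst hDR
  subst hDΔ
  have hf : ∀ c : ℕ × H, ∃ f : H → Pool.Agent.Helper84.TR.HN 1, D.Lead c →
      (f c.2 = 0 ∧ ∀ p ∈ D.Pc c.1 c.2, ∀ q ∈ D.Pc c.1 c.2,
        1 / 640 * dist p q ≤ dist (f p) (f q) ∧ dist (f p) (f q) ≤ 21 * dist p q) := by
    intro c
    by_cases hc : D.Lead c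
    · obtain ⟨h1, ⟨k, h2, h3⟩, -⟩ := hc
      obtain ⟨f, h4⟩ := hPEMB H D c.1 k c.2 h1 h2 h3
      exact ⟨f, fun _ => h4⟩
    · exact ⟨fun _ => 0, fun h => absurd h hc⟩
  choose f hf using hf
  have hup := upper hPRJ hDIS hFZU D A f (fun c hc p hp q hq => ((hf c hc).2 p hp q hq).2)
  have hlow := lower hRTB hWIN hSLB hPRJ hFZL D A N (by omega) hDk f
    (fun c hc p hp q hq => ((hf c hc).2 p hp q hq).1)
  have hcnt : Countable (TT D A) := (hCNT H D A hsep).to_subtype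
  have hph0 : ∀ c, ph D A f c o = 0 := by
    intro c
    unfold ph
    have hpos : ∀ k : ℕ, 1 ≤ k → D.R.dep c.2 = k * D.s c.1 → ¬ D.R.le c.2 o := by
      intro k h1 h2 h3
      have h4 := h3.1
      have h5 := s_pos D c.1
      have h6 : (1 : ℝ) ≤ k := by exact_mod_cast h1
      rw [ho0, h2] at h4
      nlinarith
    have e1 : (if D.Lead c then f c (D.pr c o) else 0) = 0 := by
      by_cases hc : D.Lead c
      · rw [if_pos hc]
        obtain ⟨k, h2, h3⟩ := hc.2.1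
        rw [(hPRJ H D c hc).2.2.2 o (fun h => hpos k h2 h3 h.1)]
        exact (hf c hc).1
      · rw [if_neg hc]
    have e2 : (if c ∈ FZ D A ∧ D.R.le c.2 o then D.s c.1 else 0) = 0 := by
      rw [if_neg]
      rintro ⟨h1, h2⟩
      obtain ⟨k, h3, h4⟩ := h1.2.1
      exact hpos k h3 h4 h2
    rw [e1, e2]
    rfl
  obtain ⟨Φ, hΦ0, hΦu, hΦl⟩ := hLPS (TT D A) A (Pool.Agent.Helper84.TR.HN 1 × ℝ) ⟨o, hoA⟩
    (fun c x => ph D A f c x) 53 (by norm_num) (fun c => hph0 c) (by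
      intro F x y
      have h1 := hup (F.map (Function.Embedding.subtype _)) x y x.2 y.2
      rw [Finset.sum_map] at h1
      exact h1)
  refine ⟨fun x => if h : x ∈ A then Φ ⟨x, h⟩ else 0, fun x hx => ⟨?_, fun y hy => ⟨?_, ?_⟩⟩⟩
  · simp only [dif_pos hx]
    have h1 := hΦu ⟨x, hx⟩ ⟨o, hoA⟩
    rw [hΦ0, dist_zero_right] at h1
    refine h1.trans (le_of_eq ?_)
    congr 1
    change dist x o = _
    have h2 := D.R.dist_eq x o
    have h3 := D.R.gp_nonneg x o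
    have h4 := D.R.gp_le o x
    rw [D.R.gp_comm o x, ho0] at h4
    rw [h2, ho0]
    linarith
  · simp only [dif_pos hx, dif_pos hy]
    -- the lower bound
    have main : ∀ (x y : H) (hx : x ∈ A) (hy : y ∈ A), D.R.dep y ≤ D.R.dep x →
        1 / (2560 * (B : ℝ) ^ 3) * dist x y ≤ dist (Φ ⟨x, hx⟩) (Φ ⟨y, hy⟩) := by
      intro x y hx hy hxy
      have h1 := D.R.dist_eq x y
      rcases le_or_gt (D.R.dep x - D.R.gp x y) 0 with h2 | h2
      · have h3 : dist x y ≤ 0 := by linarith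
        have h4 : dist x y = 0 := le_antisymm h3 dist_nonneg
        rw [h4, mul_zero]
        exact dist_nonneg
      · obtain ⟨c, hc, h3⟩ := hlow x y hx h2 (hdep x hx)
        have h4 := hΦl ⟨c, hc⟩ ⟨x, hx⟩ ⟨y, hy⟩
        refine le_trans ?_ (h3.trans h4)
        rw [hDB]
        have h5 : dist x y ≤ 2 * (D.R.dep x - D.R.gp x y) := by linarith
        have h6 : 1 / (1280 * (B : ℝ) ^ 3) = 2 * (1 / (2560 * (B : ℝ) ^ 3)) := by
          field_simp
          norm_num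
        rw [h6]
        have h7 : 0 < 1 / (2560 * (B : ℝ) ^ 3) := by positivity
        nlinarith
    rcases le_total (D.R.dep y) (D.R.dep x) with h | h
    · exact main x y hx hy h
    · rw [dist_comm x y, dist_comm (Φ _)]
      exact main y x hy hx h
  · simp only [dif_pos hx, dif_pos hy]
    exact hΦu ⟨x, hx⟩ ⟨y, hy⟩

end Pool.Agent.Helper61.NT.EMBB
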